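import Pool.Agent.H8.Edge2

namespace Pool.Agent.Results.MP_9dc182_co.Divisible
open Set Complex ComplexConjugate Pool.Agent.H8.Edge

/-- `t` is a closed triangle in the plane with side lengths `a`, `b`, `c`. -/
def Tri (a b c : ℝ) (t : Set ℂ) : Prop :=
  ∃ A B C : ℂ, dist B C = a ∧ dist C A = b ∧ dist A B = c ∧ t = convexHull ℝ {A, B, C}

/-- An equilateral triangle of side `X` is the union of finitely many triangles with sides
`a`, `b`, `c` whose interiors are pairwise disjoint. -/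
def Equi (a b c X : ℝ) : Prop :=
  ∃ (T : Set ℂ) (F : Set (Set ℂ)), Tri X X X T ∧ F.Finite ∧ (∀ t ∈ F, Tri a b c t) ∧ ⋃₀ F = T ∧
    F.Pairwise fun s t => Disjoint (interior s) (interior t)

lemma o_edge (C u x y : ℂ) (hu : ‖u‖ = 1) :
    o C (C + x * u) (C + y * u) = x.re * y.im - x.im * y.re := by
  have := Complex.sq_norm u
  rw [hu, normSq_apply] at this
  simp only [o, add_re, add_im, mul_re, mul_im]
  linear_combination (x.im * y.re - x.re * y.im) * this

lemma rg (A B C : ℂ) :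
    ({A, B, C} : Set ℂ) = range ![C, A, B] ∧ ({A, B, C} : Set ℂ) = range ![C, B, A] := by
  constructor <;> ext <;> simp <;> tauto

lemma big {X : ℝ} (hX : 0 < X) {T : Set ℂ} (h : Tri X X X T) : ∃ (W : Fin 3 → ℂ) (u : ℂ),
    0 < o (W 0) (W 1) (W 2) ∧ T = convexHull ℝ (range W) ∧ ‖u‖ = 1 ∧
      ∀ k, W (k + 1) - W k = X * (ρ ^ (k : ℕ) * u) := by
  obtain ⟨A, B, C, h1, h2, h3, rfl⟩ := h
  have r1 : ‖ρ‖ = 1 := (pow_eq_one_iff_of_nonneg (norm_nonneg _) three_ne_zero).1
    (by rw [← norm_pow, ρ3, norm_one])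
  have s : 0 < √3 := by positivity
  obtain ⟨u, hu, e1, e2 | e2⟩ := shape (v := A - C) (w := B - C) (q := X) (r := X) (x := X / 2) (y := X * √3 / 2) hX
    (by rw [← h2, dist_comm, dist_eq_norm]) (by rw [← h1, dist_eq_norm])
    (by rw [← h3, dist_eq_norm]; congr 1; ring) (by ring) (by linear_combination X ^ 2 / 4 * s3)
  · obtain rfl : A = C + X * u := by linear_combination e1
    obtain rfl : B = C + (X * (1 + ρ)) * u := by
      rw [show X * (1 + ρ) = ⟨X / 2, X * √3 / 2⟩ by apply Complex.ext <;> simp [ρ] <;> ring]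
      linear_combination e2
    refine ⟨_, u, ?_, congrArg _ (rg ..).1, hu, fun k => ?_⟩
    · simp [o_edge _ _ _ _ hu, ρ]; positivity
    · fin_cases k <;> simp [ρ2] <;> ring
  · obtain rfl : A = C + (X * (1 + ρ)) * (-ρ * u) := by linear_combination e1 + X * u * ρ2
    obtain rfl : B = C + X * (-ρ * u) := by
      rw [show (⟨X / 2, -(X * √3 / 2)⟩ : ℂ) = X * -ρ by
        apply Complex.ext <;> simp [ρ] <;> ring] at e2
      linear_combination e2
    have hu' : ‖-ρ * u‖ = 1 := by simp [r1, hu]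
    refine ⟨_, -ρ * u, ?_, congrArg _ (rg ..).2, hu', fun k => ?_⟩
    · simp only [Matrix.cons_val, o_edge _ _ _ _ hu']; simp [ρ]; positivity
    · fin_cases k <;> simp [ρ2] <;> ring

lemma tile {a b c : ℝ} (ha : 0 < a) (hb : 0 < b) (hc : 0 < c) (h : c ^ 2 = a ^ 2 + b ^ 2 + a * b)
    {t : Set ℂ} (ht : Tri a b c t) : ∃ (V : Fin 3 → ℂ) (u : ℂ) (σ : ℤ),
    0 < o (V 0) (V 1) (V 2) ∧ t = convexHull ℝ (range V) ∧ ‖u‖ = 1 ∧ Odd σ ∧
      ∀ (f : ℂ → ℝ) (ε : ℝ), ε * ε = 1 → (∀ (s : ℝ) z, f (s * z) = s * f z) →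
        (∀ z, f (ρ * z) = f z) → (∀ z, f ((b - a * ρ) / c * z) = ε * f z) →
          ∑ k, f (V (k + 1) - V k) = σ * f u * (ε * c + a - b) := by
  obtain ⟨A, B, C, h1, h2, h3, rfl⟩ := ht
  have r1 : ‖ρ‖ = 1 := (pow_eq_one_iff_of_nonneg (norm_nonneg _) three_ne_zero).1
    (by rw [← norm_pow, ρ3, norm_one])
  have s : 0 < √3 := by positivity
  have c0 : (c : ℂ) ≠ 0 := by exact_mod_cast hc.ne'
  have h' : (c : ℂ) ^ 2 = a ^ 2 + b ^ 2 + a * b := by exact_mod_cast h
  obtain ⟨u, hu, e1, e2 | e2⟩ := shape (v := A - C) (w := B - C) (q := a) (r := c) (x := -a / 2) (y := a * √3 / 2) hb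
    (by rw [← h2, dist_comm, dist_eq_norm]) (by rw [← h1, dist_eq_norm])
    (by rw [← h3, dist_eq_norm]; congr 1; ring) (by linear_combination -h)
    (by linear_combination a ^ 2 / 4 * s3)
  · obtain rfl : A = C + b * u := by linear_combination e1
    obtain rfl : B = C + (a * ρ) * u := by
      rw [show a * ρ = ⟨-a / 2, a * √3 / 2⟩ by apply Complex.ext <;> simp [ρ] <;> ring]
      linear_combination e2
    refine ⟨_, u, -1, ?_, congrArg _ (rg ..).1, hu, by decide, fun f ε _ f1 f2 f3 => ?_⟩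
    · simp [o_edge _ _ _ _ hu, ρ]; positivity
    · rw [Fin.sum_univ_three]
      simp only [Matrix.cons_val, zero_add, show (1 + 1 : Fin 3) = 2 from rfl,
        show (2 + 1 : Fin 3) = 0 from rfl]
      rw [show C + b * u - C = b * u by ring, show C + a * ρ * u - (C + b * u) =
        (-c : ℝ) * ((b - a * ρ) / c * u) by push_cast; field_simp; ring,
        show C - (C + a * ρ * u) = (-a : ℝ) * (ρ * u) by push_cast; ring, f1, f1, f1, f2, f3]
      push_cast; ring
  · obtain rfl : A = C + (b * ρ) * (ρ ^ 2 * u) := by linear_combination e1 - b * u * ρ3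
    obtain rfl : B = C + a * (ρ ^ 2 * u) := by
      rw [show (⟨-a / 2, -(a * √3 / 2)⟩ : ℂ) = a * ρ ^ 2 by
        rw [ρ2]; apply Complex.ext <;> simp [ρ] <;> ring] at e2
      linear_combination e2
    have hu' : ‖ρ ^ 2 * u‖ = 1 := by simp [r1, hu]
    generalize ρ ^ 2 * u = u at *
    refine ⟨_, u, 1, ?_, congrArg _ (rg ..).2, hu', by decide, fun f ε e f1 f2 f3 => ?_⟩
    · simp [o_edge _ _ _ _ hu', ρ]; positivity
    · rw [Fin.sum_univ_three]
      simp only [Matrix.cons_val, zero_add, show (1 + 1 : Fin 3) = 2 from rfl,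
        show (2 + 1 : Fin 3) = 0 from rfl]
      have := f3 (C + b * ρ * u - (C + a * u))
      rw [show (b - a * ρ) / c * (C + b * ρ * u - (C + a * u)) = c * (ρ * u) by
        field_simp; linear_combination -ρ * u * h' - a * b * u * ρ2, f1, f2] at this
      rw [show C + a * u - C = a * u by ring,
        show C - (C + b * ρ * u) = (-b : ℝ) * (ρ * u) by push_cast; ring, f1, f1, f2]
      push_cast
      linear_combination -ε * this - f (C + b * ρ * u - (C + a * u)) * e

theorem result (a b c : ℕ) (ha : 0 < a) (hb : 0 < b) (hc : 0 < c) (hab : Nat.gcd a b = 1)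
    (h : c ^ 2 = a ^ 2 + b ^ 2 + a * b) (X : ℝ) (hX : 0 < X) (hE : Equi a b c X) :
    ∃ m : ℕ, 0 < m ∧ X = m * (a * b) := by
  obtain ⟨T, F, hT, hF, ht, hU, hD⟩ := hE
  haveI := hF.fintype
  obtain ⟨W, u, w1, rfl, w2, w3⟩ := big hX hT
  choose V v σ v1 v2 v3 v4 v5 using fun t : F => tile (by positivity) (by positivity)
    (by positivity) (by exact_mod_cast h) (ht t t.2)
  have H := null_of_tiling W w1 v1 (by rw [← hU, sUnion_eq_iUnion]; simp only [← v2])
    fun i j hij => by simpa only [← v2] using hD i.2 j.2 (Subtype.coe_ne_coe.2 hij)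
  obtain ⟨n1, n2⟩ := nontors ha hb h
  obtain ⟨g, g1, g2, g3, g4, g5⟩ := exists_g n1 n2
  have u0 : u ≠ 0 := by rintro rfl; simp at w2
  choose n n' e e' p using fun t : F => g5 (v t / u) (by simp [v3, w2])
  have K : ∀ ε : ℝ, ε * ε = 1 → 3 * X = (∑ t, σ t * g ε (v t / u)) * (ε * c + a - b) :=
    fun ε hε => by
    have := cancel H (fun z => g ε (z / u)) fun t z => by simp only [mul_div_assoc, g2]
    simp only [Fintype.sum_option, Option.elim, w3, mul_div_assoc, div_self u0, g2, one_mul,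
      fun t => v5 t (fun z => g ε (z / u)) ε hε (fun t z => by simp only [mul_div_assoc, g2])
        (fun z => by simp only [mul_div_assoc, g3]) fun z => by
          rw [mul_div_assoc]; exact g4 ε _ (by rintro rfl; simp at hε)] at this
    simp [Fin.sum_univ_three, sq, mul_assoc, g1, g3, show g ε ρ = 1 by simpa [g1] using g3 ε 1] at this
    simp only [Finset.sum_mul, mul_assoc]
    linarith
  have k1 := K 1 (by simp)
  have k2 := K (-1) (by simp)
  simp only [e, e'] at k1 k2
  obtain ⟨k, hk⟩ := arith (a := a) (b := b) (c := c) (u := ∑ t, σ t * n t) (v := ∑ t, σ t * n' t)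
    (Nat.isCoprime_iff_coprime.2 hab) (by exact_mod_cast h)
    (by have := k1.symm.trans k2; simp only [one_mul, neg_mul] at this; exact_mod_cast this)
    (by rw [← Finset.sum_add_distrib]
        exact Finset.even_sum _ fun t _ => by rw [← mul_add]; exact (p t).mul_left _)
  have hk' : X = k * (a * b) := by
    have := congrArg (Int.cast : ℤ → ℝ) hk
    push_cast at this
    linarith
  have : (0 : ℝ) < k := by
    rw [hk'] at hX
    exact (mul_pos_iff_of_pos_right (by positivity)).1 hX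
  obtain ⟨m, rfl⟩ := Int.eq_ofNat_of_zero_le (by exact_mod_cast this.le : 0 ≤ k)
  exact ⟨m, by exact_mod_cast this, by exact_mod_cast hk'⟩

end Pool.Agent.Results.MP_9dc182_co.Divisible
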